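import Pool.Agent.Y734.M.FINS.Main
import Pool.Agent.Y734.N.Stms

/-!
# Project Y734/N, job FINS: finitely many quadratic points of `M_{0,n}` with given norms

Version over number fields of `Pool.Agent.Y734.M.FINS` (helper328), adapted by helper434.
-/

set_option autoImplicit false

namespace Pool.Agent.Y734.N.FINS

open Pool.Agent.Y734.M Pool.Agent.Y734.N NumberField
open Pool.Agent.Y734.M.FINS (ne02 ne12 ne20 dt_self dt_swap W nw_eq cr_eq W_map)

/-- the quadratic equation of an element of a quadratic extension -/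
theorem quad {k L : Type} [Field k] [Field L] [Algebra k L] (h2 : Module.finrank k L = 2)
    (x : L) :
    x ^ 2 - (algebraMap k L (Algebra.norm k (x + 1) - 1 - Algebra.norm k x)) * x +
      algebraMap k L (Algebra.norm k x) = 0 := by
  haveI : FiniteDimensional k L := Module.finite_of_finrank_eq_succ h2
  let b : Module.Basis (Fin 2) k L := Module.finBasisOfFinrankEq k L h2
  set M := Algebra.leftMulMatrix b x with hM
  have hn : Algebra.norm k x = M.det := Algebra.norm_eq_matrix_det b x
  have hn1 : Algebra.norm k (x + 1) = (M + 1).det := by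
    rw [Algebra.norm_eq_matrix_det b (x + 1), map_add, map_one]
  have hinj := Algebra.leftMulMatrix_injective b
  apply hinj
  rw [map_add, map_sub, map_mul, map_pow, map_zero, ← hM]
  have e1 : ∀ q : k, Algebra.leftMulMatrix b (algebraMap k L q) =
      q • (1 : Matrix (Fin 2) (Fin 2) k) := by
    intro q
    rw [AlgHom.commutes, Algebra.algebraMap_eq_smul_one]
  rw [e1, e1, hn, hn1]
  ext i j
  simp only [Matrix.det_fin_two, Matrix.add_apply, Matrix.sub_apply, Matrix.smul_apply, pow_two,
    Matrix.mul_apply, Fin.sum_univ_two, Matrix.one_apply, Matrix.zero_apply, smul_eq_mul]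
  fin_cases i <;> fin_cases j <;> simp <;> ring

variable {k : Type} [Field k] {n : ℕ}

/-- the possible values of the coordinates -/
def T (ψ : k →+* ℂ) (a : Fin (n + 3) → Fin (n + 3) → k) (i : Fin (n + 3)) : Set ℂ :=
  {z | z ^ 2 - ψ (a 1 i - 1 - a 2 i) * z + ψ (a 2 i) = 0} ∪ {0, -1}

theorem T_finite (ψ : k →+* ℂ) (a : Fin (n + 3) → Fin (n + 3) → k) (i : Fin (n + 3)) :
    (T ψ a i).Finite := by
  refine Set.Finite.union ?_ (by simp)
  have hp : (Polynomial.X ^ 2 - Polynomial.C (ψ (a 1 i - 1 - a 2 i)) * Polynomial.X +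
      Polynomial.C (ψ (a 2 i))) ≠ 0 := by
    intro h
    have h2 := congrArg (fun p => Polynomial.coeff p 2) h
    simp only [Polynomial.coeff_add, Polynomial.coeff_sub, Polynomial.coeff_X_pow,
      Polynomial.coeff_C_mul, Polynomial.coeff_X, Polynomial.coeff_C, Polynomial.coeff_zero] at h2
    norm_num at h2
  refine (Polynomial.finite_setOf_isRoot hp).subset ?_
  intro z hz
  simp only [Set.mem_setOf_eq, Polynomial.IsRoot.def, Polynomial.eval_add, Polynomial.eval_sub,
    Polynomial.eval_mul, Polynomial.eval_pow, Polynomial.eval_X, Polynomial.eval_C]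
  exact hz

theorem fins : FinsStmt := by
  intro k _ _ n a
  have hfin : Set.Finite (⋃ ψ : k →+* ℂ, {x : Fin (n + 3) → ℂ | ∀ i, x i ∈ T ψ a i}) := by
    apply Set.finite_iUnion
    intro ψ
    exact Set.Finite.pi' (fun i => T_finite ψ a i)
  refine (hfin.image (fun x => fun i j k l => W x i j * W x k l / (W x i k * W x j l))).subset ?_
  rintro c ⟨L, _, _, _, P, φ, h2, hP, ha, rfl⟩
  have h10 : (1 : Fin (n + 3)) ≠ 0 := by simp
  have h20 : (2 : Fin (n + 3)) ≠ 0 := ne20
  refine ⟨fun i => φ (nw P 2 i), ?_, ?_⟩
  · rw [Set.mem_iUnion]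
    refine ⟨φ.comp (algebraMap k L), ?_⟩
    intro i
    by_cases hi0 : i = 0
    · right; right
      subst hi0
      show φ (nw P 2 0) ∈ ({-1} : Set ℂ)
      rw [nw_eq P hP 2 0]
      simp [W, h20]
    by_cases hi2 : i = 2
    · right; left
      subst hi2
      simp [nw, dt_self]
    by_cases hi1 : i = 1
    · right; right
      subst hi1
      have h01 := hP 0 1 (by simp)
      have h02 := hP 0 2 ne02
      have h12 := hP 1 2 ne12
      have : nw P 2 1 = -1 := by
        simp only [nw, sc, if_neg h10, if_neg h20]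
        rw [dt_swap (P 2) (P 1)]
        field_simp
      simp [this]
    · left
      have h01 := hP 0 1 (by simp)
      have h02 := hP 0 2 ne02
      have h12 := hP 1 2 ne12
      have h21 : nw P 2 1 = -1 := by
        simp only [nw, sc, if_neg h10, if_neg h20]
        rw [dt_swap (P 2) (P 1)]
        field_simp
      have e1 : nw P 1 i = nw P 2 i + 1 := by
        rw [nw_eq P hP 1 i]
        simp only [W, if_neg h10, if_neg hi0]
        rw [h21]; ring
      have a1 := ha 2 i (fun e => hi2 e.symm)
      have a2 := ha 1 i (fun e => hi1 e.symm)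
      unfold nu at a1 a2
      rw [e1] at a2
      have q := quad h2 (nw P 2 i)
      rw [a1, a2] at q
      have q2 := congrArg φ q
      rw [map_add, map_sub, map_mul, map_pow, map_zero] at q2
      exact q2
  · funext i j k l
    simp only []
    rw [cr_eq P hP, nw_eq P hP i j, nw_eq P hP k l, nw_eq P hP i k, nw_eq P hP j l, map_div₀,
      map_mul, map_mul, W_map, W_map, W_map, W_map]

end Pool.Agent.Y734.N.FINS
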